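import Pool.Agent.H176.DT.G4
import Pool.Agent.H176.DT.H8
import Pool.Agent.TH188.QS.LU

/-!
MP_53121e_ag: local uniformization, in arbitrary dimension, of the places of function fields which
are reached by towers without defect.

Let `K / k` be an algebraic function field in any number of variables over an arbitrary field `k`,
and let `V` be a valuation ring of `K / k`, of arbitrary rank. Let `L` be a subfield of `K` such
that `L = k`, or, more generally, such that `V ∩ L` is log uniformizable on an affine variety
`Spec R` with function field `L` (for example, `L` of transcendence degree at most `3` over `k`, by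
Cossart and Piltant). Suppose that `K` is reached from `L` by finitely many steps `M ⊂ M'` of the
following kinds: (1) `M' = M(t)` with `t` transcendental, such that the value of every polynomial in
`t` is determined by a defectless key polynomial; (2) `M'` is a finite extension of `M` without
defect (the degree of the extension of the henselizations is `e f`). Then `V` admits local
uniformization: `K` has a projective model on which the centre of `V` is a regular point.
-/

set_option autoImplicit false

universe u

namespace Pool.Agent.Results.MP_53121e_ag.KeyPolynomialTowers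

open Pool.Agent.W418.LU2 Pool.Agent.TH188.QS

/-- The coordinate ring `k[H l / H j : l]` of the chart `j` of the projective model of `K` with the
homogeneous coordinates `H`. -/
def modelChart (k : Type u) {K : Type u} [Field k] [Field K] [Algebra k K] {N : ℕ} (H : Fin N → K)
    (j : Fin N) : Subalgebra k K :=
  Algebra.adjoin k (Set.range fun l => H l / H j)

/-- The function field `K` of `k` has a projective model (with homogeneous coordinates `H`) on
which the centre of the valuation ring `V` is a regular point. The chart `j` contains the centre of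
`V`, and `P` is the ideal of the centre. -/
def IsUniformizable (k : Type u) {K : Type u} [Field k] [Field K] [Algebra k K]
    (V : ValuationSubring K) : Prop :=
  ∃ (N : ℕ) (H : Fin N → K) (j : Fin N), H j ≠ 0 ∧ (∀ l, H l / H j ∈ V) ∧
    (∀ z : K, ∃ a ∈ modelChart k H j, ∃ b ∈ modelChart k H j, b ≠ 0 ∧ z = a / b) ∧
    ∃ P : Ideal (modelChart k H j), ∃ (_ : P.IsPrime),
      (∀ b : modelChart k H j, b ∈ P ↔ V.valuation (b : K) < 1) ∧
        IsRegularLocalRing (Localization.AtPrime P)

/-- The local ring of `Spec B` at the centre of the valuation ring `V`: the fractions of elements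
of `B` whose denominators are units of `V`. -/
def centreRing {F : Type u} [Field F] (V : ValuationSubring F) (B : Subring F) : Subring F where
  carrier := {x | ∃ a ∈ B, ∃ b ∈ B, b ≠ 0 ∧ b⁻¹ ∈ V ∧ x = a * b⁻¹}
  mul_mem' := (lo V.toSubring B).mul_mem'
  one_mem' := (lo V.toSubring B).one_mem'
  add_mem' := (lo V.toSubring B).add_mem'
  zero_mem' := (lo V.toSubring B).zero_mem'
  neg_mem' := (lo V.toSubring B).neg_mem'

/-- The chart `A[I / f]` of the blowing-up of `Spec A` in the ideal `I`. -/
def blowUpChart {F : Type u} [Field F] (A : Subring F) (I : Ideal A) (f : A) : Subring F :=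
  Subring.closure ((A : Set F) ∪ {z | ∃ a ∈ I, z = (a : F) / (f : F)})

/-- `P` is a regular local ring and the zero set of `J` is a divisor with strict normal
crossings: the radical of `J` is generated by the product of some of the elements of a regular
system of parameters. -/
def RegularPair (P : Type u) [CommRing P] (J : Ideal P) : Prop :=
  ∃ (_ : IsRegularLocalRing P) (n : ℕ) (x : Fin n → P) (s : Finset (Fin n)),
    Ideal.span (Set.range x) = IsLocalRing.maximalIdeal P ∧ ringKrullDim P = n ∧
      J.radical = Ideal.span {∏ i ∈ s, x i}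

/-- The blowing-up of `X = Spec A` in `V(I)` is a log desingularization of `(X, V(D))` along the
valuation ring `V`. Here `f ∈ I` generates `I V`, the centre of the lift of the valuation lies in
the chart `Spec A[I / f]`, and the ideal `D I` defines the preimage of `V(D) ∪ V(I)`. -/
def IsLogDesingularization {F : Type u} [Field F] (V : ValuationSubring F) (A : Subring F)
    (D I : Ideal A) : Prop :=
  ∃ f ∈ I, f ≠ 0 ∧ (∀ a ∈ I, (a : F) / (f : F) ∈ V) ∧
    RegularPair (centreRing V (blowUpChart A I f))
      (Ideal.span {z | ∃ a ∈ D * I, (z : F) = (a : F)})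

/-- The valuation ring `V` is log uniformizable on `Spec A`. (The blowings-up in the ideals
`I₀ * I₁` are cofinal: the blowing-up in `I₀ * I₁` factors through the blowing-up in `I₀`.) -/
def IsLogUniformizable {F : Type u} [Field F] (V : ValuationSubring F) (A : Subring F) : Prop :=
  ∀ D I₀ : Ideal A, D ≠ ⊥ → I₀ ≠ ⊥ →
    ∃ I₁ : Ideal A, I₁ ≠ ⊥ ∧ IsLogDesingularization V A D (I₀ * I₁)

section key

open Polynomial

variable {K : Type u} [Field K] (V : ValuationSubring K) {L : Subfield K} (θ : K)

/-- The monic polynomial `ϕ` over `L` of positive degree is a key polynomial for the valuation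
`f ↦ |f(θ)|` of polynomials: if `f` and `g` are nonzero polynomials of smaller degree and
`f g = q ϕ + r` with `deg r < deg ϕ`, then `|q(θ) ϕ(θ)| < |f(θ) g(θ)|`. (So `|r(θ)| = |f(θ) g(θ)|`,
and the values of the polynomials of smaller degree define a valuation of `L[X] / (ϕ)`.) -/
def IsKey (ϕ : L[X]) : Prop :=
  ϕ.Monic ∧ 0 < ϕ.natDegree ∧ ∀ f g : L[X], f.degree < ϕ.degree → g.degree < ϕ.degree →
    f ≠ 0 → g ≠ 0 → V.valuation (aeval θ (f * g /ₘ ϕ * ϕ)) < V.valuation (aeval θ (f * g))

/-- The polynomials of degree less than the degree of `ϕ` have an orthogonal basis over `L` with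
respect to the valuation `f ↦ |f(θ)|`. (For a key polynomial `ϕ` this means that the valued field
`L[X] / (ϕ)` is an extension of `L` of degree `e f`. It holds if there are no limit key
polynomials of degree at most `deg ϕ`.) -/
def IsDefectless (ϕ : L[X]) : Prop :=
  ∃ (n : ℕ) (β : Fin n → L[X]), (∀ i, (β i).degree < ϕ.degree ∧ β i ≠ 0) ∧
    (∀ f : L[X], f.degree < ϕ.degree → ∃ c : Fin n → L, f = ∑ i, C (c i) * β i) ∧
    ∀ (c : Fin n → L) (i : Fin n), V.valuation (aeval θ (C (c i) * β i)) ≤
      V.valuation (aeval θ (∑ j, C (c j) * β j))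

/-- The value of `f(θ)` is determined by `ϕ`: in the `ϕ`-adic expansion `f = ∑ f_k ϕ ^ k` with
`deg f_k < deg ϕ` the value of no term at `θ` is greater than the value of `f(θ)`. -/
def IsDetermined (ϕ f : L[X]) : Prop :=
  ∃ (N : ℕ) (d : ℕ → L[X]), (∀ k, (d k).degree < ϕ.degree) ∧
    f = ∑ k ∈ Finset.range N, d k * ϕ ^ k ∧
    ∀ k < N, V.valuation (aeval θ (d k * ϕ ^ k)) ≤ V.valuation (aeval θ f)

end key

open Polynomial in
/-- The extension `L ⊆ L'` of subfields of `K` is finite and has no defect with respect to the
valuation ring `V` of `K`. That is, for some valuation ring `W` over `V` of some extension field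
`M` of `K`, some root `ζ ∈ M` of a monic polynomial `f` over `V ∩ L` with `|f'(ζ)| = 1`, and some
nonzero elements `β i` of `L'`, the field `L'(ζ)` is the sum of the lines `L(ζ) β i`, and the `β
i` are orthogonal over `L(ζ) = L[ζ]`. (The extension `L(ζ) / L` is unramified. If `L^h ⊆ L'^h ⊆
K^h` are the henselizations for `V` and `[L'^h : L^h] = e f`, then this holds with `M = K^h`,
`L(ζ)` a large finite subextension of `L^h / L`, and with products of `e` elements of `L'` whose
values represent the cosets of the value group and `f` elements of `L'` whose residues form a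
basis for the `β i`. For `M = K` and `L(ζ) = L` it is the condition `[L' : L] = e f`.) -/
def IsFiniteWithoutDefect {K : Type u} [Field K] (V : ValuationSubring K) (L L' : Subfield K) :
    Prop :=
  L ≤ L' ∧ ∃ (M : Type u) (_ : Field M) (_ : Algebra K M) (W : ValuationSubring M) (ζ : M)
    (f : L[X]) (n : ℕ) (β : Fin n → K), W.comap (algebraMap K M) = V ∧ f.Monic ∧
    (∀ i, (f.coeff i : K) ∈ V) ∧ eval₂ ((algebraMap K M).comp L.subtype) ζ f = 0 ∧
    W.valuation (eval₂ ((algebraMap K M).comp L.subtype) ζ (derivative f)) = 1 ∧
    (∀ i, β i ∈ L' ∧ β i ≠ 0) ∧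
    (∀ z ∈ L', ∃ c : Fin n → L[X], algebraMap K M z =
      ∑ i, eval₂ ((algebraMap K M).comp L.subtype) ζ (c i) * algebraMap K M (β i)) ∧
    ∀ (c : Fin n → L[X]) (i : Fin n),
      W.valuation (eval₂ ((algebraMap K M).comp L.subtype) ζ (c i) * algebraMap K M (β i)) ≤
        W.valuation (∑ j, eval₂ ((algebraMap K M).comp L.subtype) ζ (c j) * algebraMap K M (β j))

open Polynomial in
/-- The subfields `L` of `K` which are reached from the field `E` by a tower of steps without
defect with respect to the valuation ring `V` of `K`. -/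
inductive Tower (E : Type u) {K : Type u} [Field E] [Field K] [Algebra E K]
    (V : ValuationSubring K) : Subfield K → Prop
  /-- The tower starts with (the image of) `E`. -/
  | base : Tower E V (algebraMap E K).fieldRange
  /-- The step from `L` to `L(t)`, where `t` is transcendental and the value of every polynomial in
  `t` is determined by a defectless key polynomial. (This holds if the valuation of `L(t)` has no
  limit key polynomials; for example, if `L` is algebraically closed, if `t` is a limit of a
  pseudo-convergent sequence of transcendental type, or if the value or the residue of a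
  defectless key polynomial at `t` is transcendental over `L`.) -/
  | transcendental (L : Subfield K) (t : K) : Tower E V L → Transcendental L t →
    (∀ f : L[X], ∃ ϕ : L[X], IsKey V t ϕ ∧ IsDefectless V t ϕ ∧ IsDetermined V t ϕ f) →
    Tower E V (L ⊔ Subfield.closure {t})
  /-- The step from `L` to a finite extension `L'` without defect. -/
  | finite (L L' : Subfield K) : Tower E V L → IsFiniteWithoutDefect V L L' → Tower E V L'

/-- Let `K` be a finitely generated field extension of a field `k`, and let `V` be a valuation ring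
of `K` which contains `k`. Let `L` be a field with `k ⊆ L ⊆ K`, and let `R ⊆ V` be a finitely
generated `k`-algebra with fraction field `L`, such that `R` is a Dedekind ring or a field (for
example, `R = L = k`) or `V ∩ L` is log uniformizable on `Spec R`. Suppose that `K` is reached from
`L` by a tower as above. Then `K` has a projective model on which the centre of `V` is a regular
point. -/
theorem result {k L K : Type u} [Field k] [Field L] [Field K] [Algebra k L] [Algebra k K]
    [Algebra L K] [IsScalarTower k L K] [Algebra.EssFiniteType k K] (V : ValuationSubring K)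
    (R : Subalgebra k L) (hRf : R.FG) (hfr : ∀ z : L, ∃ a ∈ R, ∃ b ∈ R, b ≠ 0 ∧ z = a * b⁻¹)
    (hRV : ∀ a ∈ R, algebraMap L K a ∈ V)
    (hR : IsDedekindDomain R.toSubring ∨
      IsLogUniformizable (V.comap (algebraMap L K)) R.toSubring)
    (hK : Tower L V ⊤) :
    IsUniformizable k V := by
  classical
  have hkV : ∀ a : k, algebraMap k K a ∈ V := by
    intro a
    rw [IsScalarTower.algebraMap_apply k L K]
    exact hRV _ (R.algebraMap_mem a)
  -- an affine model
  obtain ⟨S, hSf, hSV, hfrS⟩ : ∃ S : Set K, S.Finite ∧
      Subring.closure (((algebraMap k K).range : Set K) ∪ S) ≤ V.toSubring ∧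
      (∀ z : K, ∃ a ∈ Subring.closure (((algebraMap k K).range : Set K) ∪ S),
        ∃ b ∈ Subring.closure (((algebraMap k K).range : Set K) ∪ S), b ≠ 0 ∧ z = a / b) := by
    obtain ⟨σ, hσ⟩ := (Algebra.essFiniteType_iff (R := k) (S := K)).1 inferInstance
    let f : K → K := fun s => if s ∈ V then s else s⁻¹
    have hfV : ∀ s, f s ∈ V := by
      intro s
      by_cases hs : s ∈ V
      · simp only [f, if_pos hs]; exact hs
      · simp only [f, if_neg hs]; exact (V.mem_or_inv_mem s).resolve_left hs
    have hSV : Subring.closure (((algebraMap k K).range : Set K) ∪ (f '' (σ : Set K))) ≤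
        V.toSubring := by
      rw [Subring.closure_le]
      rintro z (⟨a, rfl⟩ | ⟨s, -, rfl⟩)
      · exact hkV a
      · exact hfV s
    set A := Subring.closure (((algebraMap k K).range : Set K) ∪ (f '' (σ : Set K))) with hA
    -- the fractions form a ring
    have hsub : ∀ x ∈ Algebra.adjoin k (σ : Set K), ∃ a ∈ A, ∃ b ∈ A, b ≠ 0 ∧ x = a / b := by
      intro x hx
      induction hx using Algebra.adjoin_induction with
      | mem s hs =>
        have h1 : f s ∈ A := Subring.subset_closure (Or.inr ⟨s, hs, rfl⟩)
        by_cases hsV : s ∈ V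
        · simp only [f, if_pos hsV] at h1
          exact ⟨s, h1, 1, A.one_mem, one_ne_zero, (div_one s).symm⟩
        · simp only [f, if_neg hsV] at h1
          have h0 : s ≠ 0 := fun h => hsV (h ▸ V.zero_mem)
          exact ⟨1, A.one_mem, s⁻¹, h1, inv_ne_zero h0, by rw [one_div, inv_inv]⟩
      | algebraMap r =>
        exact ⟨_, Subring.subset_closure (Or.inl ⟨r, rfl⟩), 1, A.one_mem, one_ne_zero,
          (div_one _).symm⟩
      | add x y hx hy h1 h2 =>
        obtain ⟨a, ha, b, hb, hb0, rfl⟩ := h1
        obtain ⟨c, hc, d, hd, hd0, rfl⟩ := h2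
        exact ⟨a * d + b * c, A.add_mem (A.mul_mem ha hd) (A.mul_mem hb hc), b * d,
          A.mul_mem hb hd, mul_ne_zero hb0 hd0, div_add_div _ _ hb0 hd0⟩
      | mul x y hx hy h1 h2 =>
        obtain ⟨a, ha, b, hb, hb0, rfl⟩ := h1
        obtain ⟨c, hc, d, hd, hd0, rfl⟩ := h2
        exact ⟨a * c, A.mul_mem ha hc, b * d, A.mul_mem hb hd, mul_ne_zero hb0 hd0,
          div_mul_div_comm _ _ _ _⟩
    refine ⟨f '' (σ : Set K), σ.finite_toSet.image _, hSV, ?_⟩
    intro z
    obtain ⟨t, ht, htu, hzt⟩ := hσ z
    obtain ⟨a, ha, b, hb, hb0, h1⟩ := hsub _ ht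
    obtain ⟨c, hc, d, hd, hd0, h2⟩ := hsub _ hzt
    have ht0 : t ≠ 0 := htu.ne_zero
    have ha0 : a ≠ 0 := by
      rintro rfl
      exact ht0 (by rw [h1, zero_div])
    refine ⟨c * b, A.mul_mem hc hb, d * a, A.mul_mem hd ha, mul_ne_zero hd0 ha0, ?_⟩
    rw [eq_div_iff (mul_ne_zero hd0 ha0)]
    rw [h1] at h2
    field_simp at h2
    linear_combination h2
  set A : Subring K := Subring.closure (((algebraMap k K).range : Set K) ∪ S) with hA
  have hAK : ∀ z : K, ∃ a ∈ A, ∃ b ∈ A, b ≠ 0 ∧ z = a * b⁻¹ := by
    intro z
    obtain ⟨a, ha, b, hb, hb0, hz⟩ := hfrS z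
    exact ⟨a, ha, b, hb, hb0, by rw [hz, div_eq_mul_inv]⟩
  -- log uniformization of the affine model
  obtain ⟨U, hU⟩ := hRf
  have hOL : IsNoetherianRing (algebraMap k L).range :=
    isNoetherianRing_of_surjective k _ (algebraMap k L).rangeRestrict
      (algebraMap k L).rangeRestrict_surjective
  have hOK : IsNoetherianRing (algebraMap k K).range :=
    isNoetherianRing_of_surjective k _ (algebraMap k K).rangeRestrict
      (algebraMap k K).rangeRestrict_surjective
  have hRU : R.toSubring = Subring.closure (((algebraMap k L).range : Set L) ∪ (U : Set L)) := by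
    rw [← hU, Algebra.adjoin_eq_ring_closure]
    rfl
  have hmap : ((algebraMap k L).range).map (algebraMap L K) = (algebraMap k K).range := by
    rw [RingHom.map_range, ← IsScalarTower.algebraMap_eq]
  have hRN : IsNoetherianRing R.toSubring := by
    rw [hRU]
    exact Pool.Agent.H176.DT.p_noe _ _ U.finite_toSet
  have hAN : IsNoetherianRing A := Pool.Agent.H176.DT.p_noe _ _ hSf
  have hRW : R.toSubring ≤ (V.comap (algebraMap L K)).toSubring := fun a ha => hRV a ha
  have hLU : LogUnif (V.comap (algebraMap L K)) R.toSubring := by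
    rcases hR with hR | hR
    · exact logUnif_of_dedekind _ R.toSubring hRW hfr
    · exact hR
  have kp : ∀ {M : Subfield K} {θ : K} {ϕ : Polynomial M}, IsKey V θ ϕ → IsDefectless V θ ϕ →
      ∃ (n : ℕ) (β : Fin n → Polynomial M), Pool.Agent.H176.DT.KP V θ ϕ β := by
    rintro M θ ϕ ⟨h1, h2, h3⟩ ⟨n, β, h4, h5, h6⟩
    exact ⟨n, β, h1, h2, fun i => (h4 i).1, fun i => (h4 i).2, h5, h6, h3⟩
  have key : ∀ M : Subfield K, Tower L V M →
      Pool.Agent.H176.DT.Inv V (R.toSubring.map (algebraMap L K)) M.subtype := by
    intro M hM
    induction hM with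
    | base => exact Pool.Agent.H176.DT.sub_base V R.toSubring ⟨hRW, hfr⟩ hLU
    | transcendental L t _ ht hdom ih =>
      refine Pool.Agent.H176.DT.sub_trans V _ t ht (fun f => ?_) ih
      obtain ⟨ϕ, h1, h2, N, d, h3, h4, h5⟩ := hdom f
      obtain ⟨n, β, h6⟩ := kp h1 h2
      exact ⟨ϕ, n, β, h6, N, d, ⟨h3, h4⟩, h5⟩
    | finite L L' _ hnd ih => exact Pool.Agent.H176.DT.sub_nd V _ hnd.1 hnd.2 ih
  have hSU := Pool.Agent.H176.DT.inv_SU2 V (algebraMap k L).range R.toSubring U U.finite_toSet hRU
    hRV (key ⊤ hK) A S hSf (by rw [hmap]) ⟨hSV, hAK⟩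
  obtain ⟨T', hT'f, hT'V, hreg, -⟩ := Pool.Agent.H176.DT.emb_LU V A hSV hSU ∅ Set.finite_empty
    (by simp)
  have hT'V' : T' ⊆ V := fun z hz => hT'V (Subring.subset_closure (Or.inr hz))
  -- homogeneous coordinates
  obtain ⟨N, t, ht⟩ := exists_fin_range (hSf.union hT'f)
  let H : Fin (N + 1) → K := Fin.cons 1 t
  have hH0 : H 0 = 1 := rfl
  have hHs : ∀ i : Fin N, H i.succ = t i := fun i => rfl
  have hHr : Set.range (fun l => H l / H 0) = insert 1 (S ∪ T') := by
    rw [← ht]
    ext z
    simp only [hH0, div_one]
    constructor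
    · rintro ⟨l, rfl⟩
      induction l using Fin.cases with
      | zero => exact Or.inl rfl
      | succ i => exact Or.inr ⟨i, rfl⟩
    · rintro (rfl | ⟨i, rfl⟩)
      · exact ⟨0, rfl⟩
      · exact ⟨i.succ, rfl⟩
  have hcl : Subring.closure ((((algebraMap k K).range : Subring K) : Set K) ∪
      insert 1 (S ∪ T')) = Subring.closure ((A : Set K) ∪ T') := by
    apply le_antisymm
    · rw [Subring.closure_le]
      rintro z (hz | rfl | hz | hz)
      · exact Subring.subset_closure (Or.inl (Subring.subset_closure (Or.inl hz)))
      · exact Subring.one_mem _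
      · exact Subring.subset_closure (Or.inl (Subring.subset_closure (Or.inr hz)))
      · exact Subring.subset_closure (Or.inr hz)
    · rw [Subring.closure_le]
      rintro z (hz | hz)
      · refine (Subring.closure_mono ?_) hz
        rintro w (hw | hw)
        · exact Or.inl hw
        · exact Or.inr (Or.inr (Or.inl hw))
      · exact Subring.subset_closure (Or.inr (Or.inr (Or.inr hz)))
  have hVcl : Subring.closure ((((algebraMap k K).range : Subring K) : Set K) ∪
      insert 1 (S ∪ T')) ≤ V.toSubring := by
    rw [hcl]
    exact hT'V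
  have hch : (modelChart k H 0).toSubring = Subring.closure ((A : Set K) ∪ T') := by
    unfold modelChart
    rw [adjoin_toSubring, hHr, hcl]
  obtain ⟨h3, P, hP, h4, h5⟩ := regular_centre (R := k) (T := Set.range fun l => H l / H 0)
    (V := V) (by rw [hHr]; exact hVcl) (by rw [hHr, hcl]; exact hreg)
  refine ⟨N + 1, H, 0, by rw [hH0]; exact one_ne_zero, ?_, ?_, P, hP, h4, h5⟩
  · intro l
    exact h3 ⟨H l / H 0, Algebra.subset_adjoin ⟨l, rfl⟩⟩
  · intro z
    obtain ⟨a, ha, b, hb, hb0, hz⟩ := hfrS z
    have hle : A ≤ (modelChart k H 0).toSubring := by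
      rw [hch]
      exact fun x hx => Subring.subset_closure (Or.inl hx)
    exact ⟨a, hle ha, b, hle hb, hb0, hz⟩

end Pool.Agent.Results.MP_53121e_ag.KeyPolynomialTowers
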